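import Pool.Agent.N943.RC.Stm

/-!
# MP_78cba5_pr, step P5: the lower side

For `p ≤ 1 / (2 n)` every reconstructible set of points has size `≤ ε n`, with high probability:
a reconstructible set lies in one component, and the expected number of reachable pairs is at
most `2 n`.
-/

set_option autoImplicit false

namespace Pool.Agent.N8.RC

open Finset Pool.Agent.R980 N943.RC
open scoped Classical

/-- a reconstructible set lies in one component -/
theorem reach_of_reconstructible {n d : ℕ} (hd : 1 ≤ d) (v : Fin n → Pt d)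
    (G : SimpleGraph (Fin n)) (U : Finset (Fin n)) (h : Reconstructible v G U)
    (u w : Fin n) (hu : u ∈ U) (hw : w ∈ U) : G.Reachable u w := by
  by_contra hn
  have key : ∀ t : Pt d, dist (v u + t) (v w) = dist (v u) (v w) := by
    intro t
    have hc : Consistent v G (fun z => if G.Reachable u z then v z + t else v z) := by
      intro a b hab
      by_cases ha : G.Reachable u a
      · have hb : G.Reachable u b := ha.trans hab.reachable
        simp only [if_pos ha, if_pos hb, dist_add_right]
      · have hb : ¬ G.Reachable u b := fun hb => ha (hb.trans hab.symm.reachable)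
        simp only [if_neg ha, if_neg hb]
    have := h _ hc u hu w hw
    simpa [if_pos (SimpleGraph.Reachable.refl u), if_neg hn] using this
  by_cases h0 : v u = v w
  · have e := key (EuclideanSpace.single (⟨0, hd⟩ : Fin d) (1 : ℝ))
    rw [h0, dist_self] at e
    have e2 : EuclideanSpace.single (⟨0, hd⟩ : Fin d) (1 : ℝ) = 0 := by
      have := dist_eq_zero.1 e
      simpa using this
    have e3 := congrArg norm e2
    rw [EuclideanSpace.norm_single] at e3
    simp at e3
  · have e := key (v u - v w)
    rw [dist_eq_norm, dist_eq_norm] at e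
    have e1 : v u + (v u - v w) - v w = (2 : ℝ) • (v u - v w) := by
      rw [two_smul]; abel
    rw [e1, norm_smul] at e
    have e2 : 0 < ‖v u - v w‖ := norm_pos_iff.2 (sub_ne_zero.2 h0)
    have e3 : ‖(2 : ℝ)‖ = 2 := by simp
    rw [e3] at e
    linarith

/-- `f` is a path of `G` with `k` edges -/
def PathFn {n : ℕ} (G : SimpleGraph (Fin n)) (k : ℕ) (f : Fin (k + 1) → Fin n) : Prop :=
  Function.Injective f ∧ ∀ i : Fin k, G.Adj (f i.castSucc) (f i.succ)

theorem exists_pathFn {n : ℕ} (G : SimpleGraph (Fin n)) (u w : Fin n) (h : G.Reachable u w) :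
    ∃ k < n, ∃ f : Fin (k + 1) → Fin n, PathFn G k f ∧ f 0 = u ∧ f (Fin.last k) = w := by
  obtain ⟨p, hp⟩ := h.exists_isPath
  refine ⟨p.length, ?_, fun i => p.getVert i, ⟨?_, ?_⟩, ?_, ?_⟩
  · have := hp.length_lt
    simpa using this
  · intro i j hij
    have h1 := hp.getVert_injOn (show (i : ℕ) ∈ {i | i ≤ p.length} from Nat.lt_succ_iff.1 i.2)
      (show (j : ℕ) ∈ {i | i ≤ p.length} from Nat.lt_succ_iff.1 j.2) hij
    exact Fin.ext h1
  · intro i
    exact p.adj_getVert_succ i.2
  · simp
  · simp

/-- number of paths with `k` edges -/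
noncomputable def npath {n : ℕ} (G : SimpleGraph (Fin n)) (k : ℕ) : ℕ :=
  (univ.filter fun f : Fin (k + 1) → Fin n => PathFn G k f).card

theorem card_reach_le {n : ℕ} (G : SimpleGraph (Fin n)) :
    (univ.filter fun q : Fin n × Fin n => G.Reachable q.1 q.2).card ≤
      ∑ k ∈ range n, npath G k := by
  have h1 : (univ.filter fun q : Fin n × Fin n => G.Reachable q.1 q.2) ⊆
      (range n).biUnion fun k => (univ.filter fun f : Fin (k + 1) → Fin n => PathFn G k f).image
        fun f => (f 0, f (Fin.last k)) := by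
    intro q hq
    rw [mem_filter] at hq
    obtain ⟨k, hk, f, hf, h0, h1⟩ := exists_pathFn G q.1 q.2 hq.2
    rw [mem_biUnion]
    refine ⟨k, mem_range.2 hk, mem_image.2 ⟨f, mem_filter.2 ⟨mem_univ _, hf⟩, ?_⟩⟩
    rw [h0, h1]
  refine (card_le_card h1).trans (card_biUnion_le.trans (sum_le_sum fun k _ => ?_))
  exact card_image_le

/-- probability that all pairs of a set are edges -/
theorem bex_all {E : Type} [Fintype E] [DecidableEq E] (p : ℝ) (S : Finset E) :
    bex p (fun x : E → Bool => if ∀ e ∈ S, x e = true then (1 : ℝ) else 0) = p ^ S.card := by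
  have h1 : (fun x : E → Bool => if ∀ e ∈ S, x e = true then (1 : ℝ) else 0)
      = fun x => ∏ e : E, (fun (e : E) (b : Bool) =>
          if e ∈ S then (if b = true then (1 : ℝ) else 0) else 1) e (x e) := by
    funext x
    by_cases h : ∀ e ∈ S, x e = true
    · rw [if_pos h]
      symm
      refine prod_eq_one fun e _ => ?_
      by_cases he : e ∈ S
      · simp [he, h e he]
      · simp [he]
    · rw [if_neg h]
      push_neg at h
      obtain ⟨e, he, hx⟩ := h
      symm
      refine prod_eq_zero (mem_univ e) ?_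
      simp [he, hx]
  rw [h1, bex_prod p (fun (e : E) (b : Bool) =>
          if e ∈ S then (if b = true then (1 : ℝ) else 0) else 1)]
  have h2 : ∀ e : E, (p * (if e ∈ S then (if true = true then (1 : ℝ) else 0) else 1)
      + (1 - p) * (if e ∈ S then (if false = true then (1 : ℝ) else 0) else 1))
      = if e ∈ S then p else 1 := by
    intro e; split_ifs <;> simp_all
  rw [prod_congr rfl fun e _ => h2 e, Finset.prod_ite_mem, univ_inter, prod_const]

theorem bex_pathFn {n : ℕ} {p : ℝ} (h0 : 0 ≤ p) (h1 : p ≤ 1) (k : ℕ) (f : Fin (k + 1) → Fin n) :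
    bex p (fun x : Edge n → Bool => if PathFn (ofBool x) k f then (1 : ℝ) else 0) ≤ p ^ k := by
  by_cases hf : Function.Injective f
  · have hne : ∀ i : Fin k, ¬ (s(f i.castSucc, f i.succ) : Sym2 (Fin n)).IsDiag := by
      intro i hi
      rw [Sym2.mk_isDiag_iff] at hi
      have := hf hi
      have := congrArg Fin.val this
      simp at this
    let g : Fin k → Edge n := fun i => ⟨s(f i.castSucc, f i.succ), hne i⟩
    have hg : Function.Injective g := by
      intro i j hij
      have h2 : (s(f i.castSucc, f i.succ) : Sym2 (Fin n)) = s(f j.castSucc, f j.succ) :=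
        congrArg Subtype.val hij
      rw [Sym2.eq_iff] at h2
      rcases h2 with ⟨h3, _⟩ | ⟨h3, h4⟩
      · have := congrArg Fin.val (hf h3)
        exact Fin.ext (by simpa using this)
      · have a := congrArg Fin.val (hf h3)
        have b := congrArg Fin.val (hf h4)
        simp at a b
        omega
    have h3 := bex_all p (univ.image g)
    rw [card_image_of_injective _ hg, card_univ, Fintype.card_fin] at h3
    rw [← h3]
    refine bex_mono h0 h1 fun x => ?_
    by_cases hp : PathFn (ofBool x) k f
    · rw [if_pos hp, if_pos]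
      intro e he
      obtain ⟨i, _, rfl⟩ := mem_image.1 he
      obtain ⟨h, hx⟩ := hp.2 i
      exact hx
    · rw [if_neg hp]; split_ifs <;> norm_num
  · have h2 : (fun x : Edge n → Bool => if PathFn (ofBool x) k f then (1 : ℝ) else 0)
        = fun _ => 0 := by
      funext x
      rw [if_neg fun h => hf h.1]
    rw [h2, bex_const]
    positivity

theorem bex_sum {E ι : Type} [Fintype E] [DecidableEq E] (p : ℝ) (s : Finset ι)
    (F : ι → (E → Bool) → ℝ) :
    bex p (fun x => ∑ i ∈ s, F i x) = ∑ i ∈ s, bex p (F i) := by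
  unfold bex
  rw [sum_comm]
  exact sum_congr rfl fun x _ => by rw [mul_sum]

theorem bex_npath {n : ℕ} {p : ℝ} (h0 : 0 ≤ p) (h1 : p ≤ 1) (k : ℕ) :
    bex p (fun x : Edge n → Bool => (npath (ofBool x) k : ℝ)) ≤ (n : ℝ) ^ (k + 1) * p ^ k := by
  have h2 : (fun x : Edge n → Bool => (npath (ofBool x) k : ℝ))
      = fun x => ∑ f : Fin (k + 1) → Fin n, if PathFn (ofBool x) k f then (1 : ℝ) else 0 := by
    funext x
    unfold npath
    rw [Finset.sum_boole]
  rw [h2, bex_sum]
  refine (sum_le_card_nsmul _ _ _ fun f _ => bex_pathFn h0 h1 k f).trans_eq ?_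
  rw [card_univ, Fintype.card_fun, Fintype.card_fin, Fintype.card_fin, nsmul_eq_mul]
  push_cast
  ring

theorem bex_reach {n : ℕ} {p : ℝ} (h0 : 0 ≤ p) (hn : 1 ≤ n) (hp : p ≤ 1 / (2 * n)) :
    bex p (fun x : Edge n → Bool =>
      ((univ.filter fun q : Fin n × Fin n => (ofBool x).Reachable q.1 q.2).card : ℝ)) ≤ 2 * n := by
  have hn' : (1 : ℝ) ≤ n := by exact_mod_cast hn
  have h1 : p ≤ 1 := by
    refine hp.trans ?_
    rw [div_le_one (by positivity)]
    linarith
  have h2 : bex p (fun x : Edge n → Bool =>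
      ((univ.filter fun q : Fin n × Fin n => (ofBool x).Reachable q.1 q.2).card : ℝ)) ≤
      bex p (fun x : Edge n → Bool => ∑ k ∈ range n, (npath (ofBool x) k : ℝ)) := by
    refine bex_mono h0 h1 fun x => ?_
    exact_mod_cast card_reach_le (ofBool x)
  refine h2.trans ?_
  rw [bex_sum]
  have h3 : ∀ k ∈ range n, bex p (fun x : Edge n → Bool => (npath (ofBool x) k : ℝ)) ≤
      n * (1 / 2 : ℝ) ^ k := by
    intro k _
    refine (bex_npath h0 h1 k).trans ?_
    rw [pow_succ, mul_assoc, mul_comm ((n : ℝ) ^ k), mul_assoc, ← mul_pow]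
    refine mul_le_mul_of_nonneg_left (pow_le_pow_left₀ (by positivity) ?_ _) (by positivity)
    have := mul_le_mul_of_nonneg_right hp (by positivity : (0 : ℝ) ≤ n)
    refine this.trans_eq ?_
    field_simp
  refine (sum_le_sum h3).trans ?_
  rw [← mul_sum, mul_comm (2 : ℝ)]
  refine mul_le_mul_of_nonneg_left ?_ (by positivity)
  have h4 := geom_sum_eq (by norm_num : (1 / 2 : ℝ) ≠ 1) n
  rw [h4]
  have h5 : (0 : ℝ) < (1 / 2 : ℝ) ^ n := by positivity
  rw [div_le_iff_of_neg (by norm_num)]
  linarith

theorem lower : N943.RC.Lower := by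
  intro d hd ε hε η hη
  obtain ⟨N, hN⟩ := exists_nat_gt (2 / (ε ^ 2 * η))
  refine ⟨max N 1, fun n hn p hp0 hp v => ?_⟩
  have hn1 : 1 ≤ n := (le_max_right _ _).trans hn
  have hnN : N ≤ n := (le_max_left _ _).trans hn
  have hn' : (1 : ℝ) ≤ n := by exact_mod_cast hn1
  have hnN' : (N : ℝ) ≤ n := by exact_mod_cast hnN
  have h1 : p ≤ 1 := by
    refine hp.trans ?_
    rw [div_le_one (by positivity)]
    linarith
  have hadd := gnp_add_not (n := n) (p := p)
    (fun G => ∀ U : Finset (Fin n), Reconstructible v G U → (U.card : ℝ) ≤ ε * n)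
  have hm := gnp_markov hp0 h1
    (fun G => ¬ ∀ U : Finset (Fin n), Reconstructible v G U → (U.card : ℝ) ≤ ε * n)
    (fun x : Edge n → Bool =>
      ((univ.filter fun q : Fin n × Fin n => (ofBool x).Reachable q.1 q.2).card : ℝ))
    (fun x => by positivity) ((ε * n) ^ 2) (by positivity) (by
      intro x hx
      push_neg at hx
      obtain ⟨U, hU, hUc⟩ := hx
      have h2 : U ×ˢ U ⊆ univ.filter fun q : Fin n × Fin n => (ofBool x).Reachable q.1 q.2 := by
        intro q hq
        rw [mem_product] at hq
        exact mem_filter.2 ⟨mem_univ _, reach_of_reconstructible hd v _ U hU _ _ hq.1 hq.2⟩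
      have h3 := card_le_card h2
      rw [card_product] at h3
      have h4 : (U.card : ℝ) * U.card ≤
          ((univ.filter fun q : Fin n × Fin n => (ofBool x).Reachable q.1 q.2).card : ℝ) := by
        exact_mod_cast h3
      refine le_trans ?_ h4
      rw [sq]
      exact mul_le_mul hUc.le hUc.le (by positivity) (by positivity))
  have hb := bex_reach hp0 hn1 hp
  have h5 : gnp n p (fun G => ¬ ∀ U : Finset (Fin n), Reconstructible v G U →
      (U.card : ℝ) ≤ ε * n) ≤ 2 * n / (ε * n) ^ 2 :=
    hm.trans (div_le_div_of_nonneg_right hb (by positivity))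
  have h6 : 2 * (n : ℝ) / (ε * n) ^ 2 ≤ η := by
    rw [div_le_iff₀ (by positivity)]
    have h7 : 2 / (ε ^ 2 * η) < n := lt_of_lt_of_le hN hnN'
    rw [div_lt_iff₀ (by positivity)] at h7
    have h8 := mul_le_mul_of_nonneg_right h7.le (by positivity : (0 : ℝ) ≤ n)
    refine h8.trans_eq ?_
    ring
  linarith

end Pool.Agent.N8.RC
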